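import Mathlib
import Pool.Agent.H892.ZL.Stm

set_option autoImplicit false

/-!
# Project ZL (helper892), task IRR: the chart hypersurface is irreducible (helper161)
-/

namespace Pool.Agent.H161.ZL

open MvPolynomial Matrix Pool.Agent.H892.ZL

/-- a polynomial of degree zero in `y` is a polynomial in `x` -/
theorem inx_of_zero {f : SA} (hf : IsWeightedHomogeneous wty f 0) :
    ∃ f' : MvPolynomial (Fin 3) ℂ, inx f' = f := by
  refine exists_rename_eq_of_vars_subset_range f Sum.inl Sum.inl_injective ?_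
  intro i hi
  rcases i with i | j
  · exact ⟨i, rfl⟩
  · exfalso
    obtain ⟨d, hd, hj⟩ := (mem_vars_iff_mem_support (Sum.inr j)).1 hi
    have h1 := hf (mem_support_iff.1 hd)
    have h2 : d (Sum.inr j) ≤ Finsupp.weight wty d :=
      Finsupp.le_weight wty (s := Sum.inr j) one_ne_zero d
    rw [h1] at h2
    exact (Finsupp.mem_support_iff.1 hj) (Nat.le_zero.1 h2)

theorem t_IRR (h1 : S_HOMF) (h2 : S_IRR0) (h3 : S_IRR1) (h4 : S_KAPH) : S_IRR := by
  intro K hK
  have hw : IsWeightedHomogeneous wty (kap K) 3 := h4 3 K hK.hom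
  have hne : kap K ≠ 0 := by
    intro h
    obtain ⟨x, hx⟩ := hK.lead 0
    rw [h, map_zero] at hx
    exact hx rfl
  have h0 : ∀ f g : SA, kap K = f * g → IsWeightedHomogeneous wty f 0 → IsUnit f := by
    intro f g hfg hf
    obtain ⟨f', rfl⟩ := inx_of_zero hf
    exact (h2 K hK f' ⟨g, hfg⟩).map (rename Sum.inl)
  have hirr : Irreducible (kap K) := by
    refine ⟨?_, ?_⟩
    · intro hu
      obtain ⟨r, -, hr⟩ := isUnit_iff_eq_C_of_isReduced.1 hu
      have h5 : IsWeightedHomogeneous wty (kap K) 0 := by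
        rw [hr]
        exact isWeightedHomogeneous_C wty r
      have h6 := IsWeightedHomogeneous.inj_right hne hw h5
      omega
    · intro f g hfg
      have hfg0 : f * g ≠ 0 := by rw [← hfg]; exact hne
      obtain ⟨a, b, hab, ha, hb⟩ := h1 f g 3 hfg0 (by rw [← hfg]; exact hw)
      have hcases : a = 0 ∨ b = 0 ∨ (a = 1 ∧ b = 2) ∨ (a = 2 ∧ b = 1) := by omega
      rcases hcases with h | h | ⟨h, h'⟩ | ⟨h, h'⟩
      · rw [h] at ha
        exact Or.inl (h0 f g hfg ha)
      · rw [h] at hb
        exact Or.inr (h0 g f (by rw [hfg, mul_comm]) hb)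
      · rw [h] at ha
        rw [h'] at hb
        exact absurd hfg (h3 K hK f g ha hb)
      · rw [h] at ha
        rw [h'] at hb
        exact absurd (by rw [hfg, mul_comm]) (h3 K hK g f hb ha)
  exact hirr.prime

end Pool.Agent.H161.ZL
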