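import Mathlib
import Pool.Agent.H892.ZL.Stm2

set_option autoImplicit false

/-!
# Project ZL (helper892), task SINGL: the singular lines of the complex (helper161)
-/

namespace Pool.Agent.H161.ZL

open MvPolynomial Matrix Pool.Agent.H892.ZL

section forms

variable (A : Matrix (Fin 4) (Fin 4) ℂ) (x y z : Fin 4 → ℂ) (c : ℂ)

theorem bf_add_right : bf A x (y + z) = bf A x y + bf A x z := by
  unfold bf
  rw [mulVec_add, dotProduct_add]

theorem bf_smul_right : bf A x (c • y) = c * bf A x y := by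
  unfold bf
  rw [mulVec_smul, dotProduct_smul, smul_eq_mul]

theorem bf_add_left : bf A (x + y) z = bf A x z + bf A y z := by
  unfold bf
  rw [add_dotProduct]

theorem bf_smul_left : bf A (c • x) y = c * bf A x y := by
  unfold bf
  rw [smul_dotProduct, smul_eq_mul]

variable {A}

theorem bf_symm (hA : A.IsSymm) : bf A x y = bf A y x := by
  unfold bf
  rw [dotProduct_mulVec, dotProduct_comm, ← mulVec_transpose, hA.eq]

theorem qf_comb (hA : A.IsSymm) (a b : ℂ) :
    qf A (a • x + b • y) = a ^ 2 * bf A x x + 2 * a * b * bf A x y + b ^ 2 * bf A y y := by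
  have h : qf A (a • x + b • y) = bf A (a • x + b • y) (a • x + b • y) := rfl
  rw [h]
  simp only [bf_add_right, bf_add_left, bf_smul_right, bf_smul_left]
  rw [bf_symm y x hA]
  ring

end forms

theorem member_mulVec (Q : Fin 3 → Matrix (Fin 4) (Fin 4) ℂ) (l : Fin 3 → ℂ) (v : Fin 4 → ℂ) :
    member Q l *ᵥ v = ∑ k, l k • (Q k *ᵥ v) := by
  unfold member
  rw [Matrix.sum_mulVec]
  exact Finset.sum_congr rfl fun k _ => smul_mulVec _ _ _

theorem bf_member (Q : Fin 3 → Matrix (Fin 4) (Fin 4) ℂ) (l : Fin 3 → ℂ) (u v : Fin 4 → ℂ) :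
    bf (member Q l) u v = ∑ k, l k * bf (Q k) u v := by
  unfold bf
  rw [member_mulVec, dotProduct_sum]
  exact Finset.sum_congr rfl fun k _ => by rw [dotProduct_smul, smul_eq_mul]

theorem member_symm {Q : Fin 3 → Matrix (Fin 4) (Fin 4) ℂ} (hQ : ∀ k, (Q k).IsSymm)
    (l : Fin 3 → ℂ) : (member Q l).IsSymm := by
  unfold member Matrix.IsSymm
  rw [transpose_sum]
  exact Finset.sum_congr rfl fun k _ => by rw [transpose_smul, (hQ k).eq]

/-- combinations of two independent vectors -/
theorem li_comb {x y : Fin 4 → ℂ} (h : LinearIndependent ℂ ![x, y]) {a b a' b' : ℂ}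
    (hd : a * b' - a' * b ≠ 0) : LinearIndependent ℂ ![a • x + b • y, a' • x + b' • y] := by
  rw [LinearIndependent.pair_iff] at h ⊢
  intro s t hst
  have h1 := h (s * a + t * a') (s * b + t * b') (by
    rw [← hst]
    simp only [smul_add, smul_smul, add_smul]
    abel)
  obtain ⟨h2, h3⟩ := h1
  constructor
  · have h4 : s * (a * b' - a' * b) = 0 := by linear_combination b' * h2 - a' * h3
    exact (mul_eq_zero.1 h4).resolve_right hd
  · have h4 : t * (a * b' - a' * b) = 0 := by linear_combination a * h3 - b * h2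
    exact (mul_eq_zero.1 h4).resolve_right hd

theorem comb_ne {x y : Fin 4 → ℂ} (h : LinearIndependent ℂ ![x, y]) {a b : ℂ}
    (hab : a ≠ 0 ∨ b ≠ 0) : a • x + b • y ≠ 0 := by
  intro h0
  rw [LinearIndependent.pair_iff] at h
  obtain ⟨h1, h2⟩ := h a b h0
  rcases hab with h3 | h3
  · exact h3 h1
  · exact h3 h2

/-- the columns of the adjugate are proportional to the left kernel -/
theorem adj_l (N : Matrix (Fin 3) (Fin 3) ℂ) (l : Fin 3 → ℂ) (h : l ᵥ* N = 0) (i j k : Fin 3) :
    l j * N.adjugate i k = l k * N.adjugate i j := by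
  have e : ∀ m, l 0 * N 0 m + l 1 * N 1 m + l 2 * N 2 m = 0 := by
    intro m
    have := congrFun h m
    simpa [Matrix.vecMul, dotProduct, Fin.sum_univ_three] using this
  have e0 := e 0
  have e1 := e 1
  have e2 := e 2
  rw [Matrix.adjugate_fin_three]
  fin_cases i <;> fin_cases j <;> fin_cases k <;> simp <;>
    first
    | ring1
    | linear_combination N 0 2 * e1 - N 0 1 * e2
    | linear_combination N 0 1 * e2 - N 0 2 * e1
    | linear_combination N 1 2 * e1 - N 1 1 * e2
    | linear_combination N 1 1 * e2 - N 1 2 * e1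
    | linear_combination N 2 2 * e1 - N 2 1 * e2
    | linear_combination N 2 1 * e2 - N 2 2 * e1
    | linear_combination N 0 2 * e0 - N 0 0 * e2
    | linear_combination N 0 0 * e2 - N 0 2 * e0
    | linear_combination N 1 2 * e0 - N 1 0 * e2
    | linear_combination N 1 0 * e2 - N 1 2 * e0
    | linear_combination N 2 2 * e0 - N 2 0 * e2
    | linear_combination N 2 0 * e2 - N 2 2 * e0
    | linear_combination N 0 1 * e0 - N 0 0 * e1
    | linear_combination N 0 0 * e1 - N 0 1 * e0
    | linear_combination N 1 1 * e0 - N 1 0 * e1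
    | linear_combination N 1 0 * e1 - N 1 1 * e0
    | linear_combination N 2 1 * e0 - N 2 0 * e1
    | linear_combination N 2 0 * e1 - N 2 1 * e0

/-- matrices with vanishing adjugate -/
theorem minors (N : Matrix (Fin 3) (Fin 3) ℂ) (h : N.adjugate = 0) (i i' k k' : Fin 3) :
    N i k * N i' k' = N i k' * N i' k := by
  rw [Matrix.adjugate_fin_three] at h
  have h00 := congrFun (congrFun h 0) 0
  have h01 := congrFun (congrFun h 0) 1
  have h02 := congrFun (congrFun h 0) 2
  have h10 := congrFun (congrFun h 1) 0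
  have h11 := congrFun (congrFun h 1) 1
  have h12 := congrFun (congrFun h 1) 2
  have h20 := congrFun (congrFun h 2) 0
  have h21 := congrFun (congrFun h 2) 1
  have h22 := congrFun (congrFun h 2) 2
  simp at h00 h01 h02 h10 h11 h12 h20 h21 h22
  fin_cases i <;> fin_cases i' <;> fin_cases k <;> fin_cases k' <;> simp only [Fin.zero_eta,
    Fin.mk_one, Fin.reduceFinMk, Fin.isValue] <;>
    first
    | ring1
    | linear_combination h00
    | linear_combination -h00
    | linear_combination h01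
    | linear_combination -h01
    | linear_combination h02
    | linear_combination -h02
    | linear_combination h10
    | linear_combination -h10
    | linear_combination h11
    | linear_combination -h11
    | linear_combination h12
    | linear_combination -h12
    | linear_combination h20
    | linear_combination -h20
    | linear_combination h21
    | linear_combination -h21
    | linear_combination h22
    | linear_combination -h22

/-- a common point of tangency gives a contradiction -/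
theorem no_double {Q : Fin 3 → Matrix (Fin 4) (Fin 4) ℂ} (hQ : ∀ k, (Q k).IsSymm) (hB : RegB Q)
    {x y : Fin 4 → ℂ} (hxy : LinearIndependent ℂ ![x, y]) {a b : ℂ} (hab : a ≠ 0 ∨ b ≠ 0)
    (h1 : ∀ k, a * bf (Q k) x x + b * bf (Q k) x y = 0)
    (h2 : ∀ k, a * bf (Q k) x y + b * bf (Q k) y y = 0) : False := by
  have he := comb_ne hxy hab
  -- the vectors `Q k e` are orthogonal to `x` and `y`
  let W : Submodule ℂ (Fin 4 → ℂ) := LinearMap.ker (Matrix.mulVecLin (Matrix.of ![x, y]))
  have hW : Module.finrank ℂ W = 2 := by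
    have h3 := LinearMap.finrank_range_add_finrank_ker (Matrix.mulVecLin (Matrix.of ![x, y]))
    have h4 : Module.finrank ℂ (LinearMap.range (Matrix.mulVecLin (Matrix.of ![x, y]))) = 2 := by
      have h5 : (Matrix.of ![x, y]).rank = Fintype.card (Fin 2) :=
        LinearIndependent.rank_matrix (M := Matrix.of ![x, y]) hxy
      exact h5
    rw [h4, Module.finrank_fintype_fun_eq_card, Fintype.card_fin] at h3
    have h6 : Module.finrank ℂ W = Module.finrank ℂ
      (LinearMap.ker (Matrix.mulVecLin (Matrix.of ![x, y]))) := rfl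
    omega
  have hm : ∀ k, Q k *ᵥ (a • x + b • y) ∈ W := by
    intro k
    rw [LinearMap.mem_ker, Matrix.mulVecLin_apply]
    funext i
    fin_cases i
    · show x ⬝ᵥ Q k *ᵥ (a • x + b • y) = 0
      have h3 : bf (Q k) x (a • x + b • y) = 0 := by
        rw [bf_add_right, bf_smul_right, bf_smul_right]
        exact h1 k
      exact h3
    · show y ⬝ᵥ Q k *ᵥ (a • x + b • y) = 0
      have h3 : bf (Q k) y (a • x + b • y) = 0 := by
        rw [bf_add_right, bf_smul_right, bf_smul_right, bf_symm y x (hQ k)]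
        exact h2 k
      exact h3
  have hdep : ¬ LinearIndependent ℂ (fun k : Fin 3 => (⟨_, hm k⟩ : W)) := by
    intro hli
    have h3 := hli.fintype_card_le_finrank
    rw [Fintype.card_fin, hW] at h3
    omega
  rw [Fintype.not_linearIndependent_iff] at hdep
  obtain ⟨l, hl, k0, hk0⟩ := hdep
  have hl0 : l ≠ 0 := fun h => hk0 (congrFun h k0)
  have hMe : member Q l *ᵥ (a • x + b • y) = 0 := by
    rw [member_mulVec]
    have h3 := congrArg (Subtype.val) hl
    simpa using h3
  obtain ⟨k, hk⟩ := hB l hl0 _ he hMe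
  apply hk
  rw [qf_comb x y (hQ k)]
  linear_combination a * h1 k + b * h2 k

/-- two zeros of a nondegenerate binary form -/
theorem two_zeros {α β γ : ℂ} (h : β ^ 2 ≠ α * γ) : ∃ a b a' b' : ℂ, a * b' - a' * b ≠ 0 ∧
    α * a ^ 2 + 2 * β * a * b + γ * b ^ 2 = 0 ∧
    α * a' ^ 2 + 2 * β * a' * b' + γ * b' ^ 2 = 0 := by
  by_cases hα : α = 0
  · subst hα
    have hβ : β ≠ 0 := by
      rintro rfl
      apply h
      ring
    refine ⟨1, 0, γ, -(2 * β), ?_, by ring, by ring⟩
    have h2 : (2 : ℂ) * β ≠ 0 := mul_ne_zero two_ne_zero hβ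
    intro h3
    apply h2
    linear_combination -h3
  · obtain ⟨s, hs⟩ := IsAlgClosed.exists_pow_nat_eq (β ^ 2 - α * γ) (n := 2) (by norm_num)
    have hs0 : s ≠ 0 := by
      rintro rfl
      apply h
      linear_combination -hs
    refine ⟨-β + s, α, -β - s, α, ?_, ?_, ?_⟩
    · have h2 : 2 * α * s ≠ 0 := mul_ne_zero (mul_ne_zero two_ne_zero hα) hs0
      intro h3
      apply h2
      linear_combination h3
    · linear_combination α * hs
    · linear_combination α * hs

theorem plu_comb (x y : Fin 4 → ℂ) (a b a' b' : ℂ) :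
    plu (a • x + b • y) (a' • x + b' • y) = (a * b' - a' * b) • plu x y := by
  funext i
  fin_cases i <;> simp [plu] <;> ring

theorem plu_smul_left (x y : Fin 4 → ℂ) (c : ℂ) : plu (c • x) y = c • plu x y := by
  funext i
  fin_cases i <;> simp [plu] <;> ring

theorem vec_zero {v : Fin 4 → ℂ} (h : ∀ ξ : Fin 4 → ℂ, ξ ⬝ᵥ v = 0) : v = 0 := by
  funext i
  have := h (Pi.single i 1)
  rwa [single_one_dotProduct] at this

/-- CASE A: the restricted net has rank one at least -/
theorem adj_zero {Q : Fin 3 → Matrix (Fin 4) (Fin 4) ℂ} (hQ : ∀ k, (Q k).IsSymm) (hA : RegA Q)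
    (hB : RegB Q) {x y : Fin 4 → ℂ} (hxy : LinearIndependent ℂ ![x, y])
    (hdet : (NN Q x y).det = 0)
    (htr : ∀ ξ η : Fin 4 → ℂ, ((NN Q x y).adjugate * NN' Q x y ξ η).trace = 0) :
    (NN Q x y).adjugate = 0 := by
  by_contra hne
  obtain ⟨l, hl0, hl⟩ := Matrix.exists_vecMul_eq_zero_iff.2 hdet
  obtain ⟨k0, hk0⟩ : ∃ k0, l k0 ≠ 0 := Function.ne_iff.1 hl0
  obtain ⟨r, hr⟩ : ∃ r : Fin 3 → ℂ, r = fun i => (NN Q x y).adjugate i k0 / l k0 := ⟨_, rfl⟩
  have hP : ∀ i k, (NN Q x y).adjugate i k = r i * l k := by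
    intro i k
    have h1 := adj_l (NN Q x y) l hl i k0 k
    have h2 : (NN Q x y).adjugate i k = l k * (NN Q x y).adjugate i k0 / l k0 := by
      rw [eq_div_iff hk0, ← h1]
      ring
    rw [h2, hr]
    ring
  -- the kernel
  have hNr : ∀ k, bf (Q k) x x * r 0 + bf (Q k) x y * r 1 + bf (Q k) y y * r 2 = 0 := by
    intro k
    have h1 := Matrix.mul_adjugate (NN Q x y)
    rw [hdet, zero_smul] at h1
    have h2 := congrFun (congrFun h1 k) k0
    rw [Matrix.mul_apply, Fin.sum_univ_three, hP, hP, hP] at h2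
    have h3 : (bf (Q k) x x * r 0 + bf (Q k) x y * r 1 + bf (Q k) y y * r 2) * l k0 = 0 := by
      have h4 : NN Q x y k 0 = bf (Q k) x x := rfl
      have h5 : NN Q x y k 1 = bf (Q k) x y := rfl
      have h6 : NN Q x y k 2 = bf (Q k) y y := rfl
      rw [h4, h5, h6] at h2
      rw [Matrix.zero_apply] at h2
      linear_combination h2
    exact (mul_eq_zero.1 h3).resolve_right hk0
  have hMs := member_symm hQ l
  have htr' : ∀ ξ η : Fin 4 → ℂ, 2 * r 0 * bf (member Q l) ξ x + r 1 * (bf (member Q l) ξ y +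
      bf (member Q l) η x) + 2 * r 2 * bf (member Q l) η y = 0 := by
    intro ξ η
    rw [← htr ξ η, bf_symm ξ x hMs, bf_symm η x hMs, bf_symm η y hMs]
    simp only [bf_member, Matrix.trace, Matrix.diag_apply, Matrix.mul_apply, hP,
      Fin.sum_univ_three]
    have h4 : ∀ k, NN' Q x y ξ η k 0 = 2 * bf (Q k) x ξ := fun _ => rfl
    have h5 : ∀ k, NN' Q x y ξ η k 1 = bf (Q k) ξ y + bf (Q k) x η := fun _ => rfl
    have h6 : ∀ k, NN' Q x y ξ η k 2 = 2 * bf (Q k) y η := fun _ => rfl
    simp only [h4, h5, h6]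
    ring
  have hz : ∀ u : Fin 4 → ℂ, bf (member Q l) 0 u = 0 := by
    intro u
    unfold bf
    rw [zero_dotProduct]
  have hu : member Q l *ᵥ ((2 * r 0) • x + r 1 • y) = 0 := by
    apply vec_zero
    intro ξ
    have h1 := htr' ξ 0
    rw [hz, hz] at h1
    have h2 : bf (member Q l) ξ ((2 * r 0) • x + r 1 • y) = 0 := by
      rw [bf_add_right, bf_smul_right, bf_smul_right]
      linear_combination h1
    exact h2
  have hv : member Q l *ᵥ (r 1 • x + (2 * r 2) • y) = 0 := by
    apply vec_zero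
    intro η
    have h1 := htr' 0 η
    rw [hz, hz] at h1
    have h2 : bf (member Q l) η (r 1 • x + (2 * r 2) • y) = 0 := by
      rw [bf_add_right, bf_smul_right, bf_smul_right]
      linear_combination h1
    exact h2
  have hdisc : 2 * r 0 * (2 * r 2) - r 1 * r 1 = 0 := by
    by_contra hd
    exact hA l hl0 _ _ hu hv (li_comb hxy hd)
  obtain ⟨a, b, t, hab, ht, ha, hb, hc⟩ : ∃ a b t : ℂ, (a ≠ 0 ∨ b ≠ 0) ∧ t ≠ 0 ∧
      r 0 = t * a ^ 2 ∧ r 1 = 2 * t * a * b ∧ r 2 = t * b ^ 2 := by
    by_cases h0 : r 0 = 0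
    · have h1 : r 1 = 0 := by
        rw [h0] at hdisc
        have : r 1 * r 1 = 0 := by linear_combination -hdisc
        exact mul_self_eq_zero.1 this
      have h2 : r 2 ≠ 0 := by
        intro h2
        apply hne
        ext i k
        rw [hP, Matrix.zero_apply]
        fin_cases i <;> simp [h0, h1, h2]
      exact ⟨0, 1, r 2, Or.inr one_ne_zero, h2, by rw [h0]; ring, by rw [h1]; ring, by ring⟩
    · refine ⟨2 * r 0, r 1, 1 / (4 * r 0), Or.inl (mul_ne_zero two_ne_zero h0),
        one_div_ne_zero (mul_ne_zero (by norm_num : (4 : ℂ) ≠ 0) h0), ?_, ?_, ?_⟩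
      · field_simp
        ring
      · field_simp
        ring
      · field_simp
        linear_combination hdisc
  have he := comb_ne hxy hab
  have hMe : member Q l *ᵥ (a • x + b • y) = 0 := by
    have e1 : (2 * r 0) • x + r 1 • y = (2 * t * a) • (a • x + b • y) := by
      rw [ha, hb, smul_add, smul_smul, smul_smul]
      congr 2
      ring
    have e2 : r 1 • x + (2 * r 2) • y = (2 * t * b) • (a • x + b • y) := by
      rw [hb, hc, smul_add, smul_smul, smul_smul]
      congr 2 <;> ring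
    rcases hab with h | h
    · rw [e1, mulVec_smul] at hu
      exact (smul_eq_zero.1 hu).resolve_left (mul_ne_zero (mul_ne_zero two_ne_zero ht) h)
    · rw [e2, mulVec_smul] at hv
      exact (smul_eq_zero.1 hv).resolve_left (mul_ne_zero (mul_ne_zero two_ne_zero ht) h)
  obtain ⟨k, hk⟩ := hB l hl0 _ he hMe
  apply hk
  rw [qf_comb x y (hQ k)]
  have h1 := hNr k
  rw [ha, hb, hc] at h1
  have h2 : t * (a ^ 2 * bf (Q k) x x + 2 * a * b * bf (Q k) x y + b ^ 2 * bf (Q k) y y) = 0 := by
    linear_combination h1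
  exact (mul_eq_zero.1 h2).resolve_left ht

theorem t_SINGL : S_SINGL := by
  intro Q hQ hA hB x y hxy hdet htr
  have hadj := adj_zero hQ hA hB hxy hdet htr
  have hmin := minors _ hadj
  by_cases hN : NN Q x y = 0
  · exfalso
    have h0 : ∀ k i, NN Q x y k i = 0 := fun k i => by rw [hN]; rfl
    refine no_double hQ hB hxy (a := 1) (b := 0) (Or.inl one_ne_zero) (fun k => ?_) (fun k => ?_)
    · have h4 : bf (Q k) x x = 0 := h0 k 0
      rw [h4]
      ring
    · have h5 : bf (Q k) x y = 0 := h0 k 1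
      rw [h5]
      ring
  obtain ⟨k0, i0, hki⟩ : ∃ k0 i0, NN Q x y k0 i0 ≠ 0 := by
    by_contra hcon
    push Not at hcon
    apply hN
    ext k i
    exact hcon k i
  -- the rows are multiples of the row `k0`
  have hrow : ∀ k, ∃ n : ℂ, bf (Q k) x x = n * bf (Q k0) x x ∧ bf (Q k) x y = n * bf (Q k0) x y ∧
      bf (Q k) y y = n * bf (Q k0) y y := by
    intro k
    refine ⟨NN Q x y k i0 / NN Q x y k0 i0, ?_, ?_, ?_⟩
    · have h1 : bf (Q k) x x * NN Q x y k0 i0 = NN Q x y k i0 * bf (Q k0) x x := hmin k k0 0 i0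
      rw [div_mul_eq_mul_div, eq_div_iff hki, h1]
    · have h1 : bf (Q k) x y * NN Q x y k0 i0 = NN Q x y k i0 * bf (Q k0) x y := hmin k k0 1 i0
      rw [div_mul_eq_mul_div, eq_div_iff hki, h1]
    · have h1 : bf (Q k) y y * NN Q x y k0 i0 = NN Q x y k i0 * bf (Q k0) y y := hmin k k0 2 i0
      rw [div_mul_eq_mul_div, eq_div_iff hki, h1]
  obtain ⟨α, hα⟩ : ∃ α, α = bf (Q k0) x x := ⟨_, rfl⟩
  obtain ⟨β, hβ⟩ : ∃ β, β = bf (Q k0) x y := ⟨_, rfl⟩
  obtain ⟨γ, hγ⟩ : ∃ γ, γ = bf (Q k0) y y := ⟨_, rfl⟩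
  rw [← hα, ← hβ, ← hγ] at hrow
  by_cases hd : β ^ 2 = α * γ
  · exfalso
    obtain ⟨a, b, hab, h1, h2⟩ : ∃ a b : ℂ, (a ≠ 0 ∨ b ≠ 0) ∧ a * α + b * β = 0 ∧
        a * β + b * γ = 0 := by
      by_cases h0 : α = 0 ∧ β = 0
      · exact ⟨1, 0, Or.inl one_ne_zero, by rw [h0.1]; ring, by rw [h0.2]; ring⟩
      · refine ⟨β, -α, ?_, by ring, by linear_combination hd⟩
        by_contra hcon
        push Not at hcon
        exact h0 ⟨neg_eq_zero.1 hcon.2, hcon.1⟩
    refine no_double hQ hB hxy hab (fun k => ?_) (fun k => ?_)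
    · obtain ⟨n, e1, e2, e3⟩ := hrow k
      rw [e1, e2]
      linear_combination n * h1
    · obtain ⟨n, e1, e2, e3⟩ := hrow k
      rw [e2, e3]
      linear_combination n * h2
  · obtain ⟨a, b, a', b', hD, h1, h2⟩ := two_zeros hd
    have hq1 : ∀ k, qf (Q k) (a • x + b • y) = 0 := by
      intro k
      obtain ⟨n, e1, e2, e3⟩ := hrow k
      rw [qf_comb x y (hQ k), e1, e2, e3]
      linear_combination n * h1
    have hq2 : ∀ k, qf (Q k) (a' • x + b' • y) = 0 := by
      intro k
      obtain ⟨n, e1, e2, e3⟩ := hrow k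
      rw [qf_comb x y (hQ k), e1, e2, e3]
      linear_combination n * h2
    refine ⟨(a * b' - a' * b)⁻¹ • (a • x + b • y), a' • x + b' • y, fun k => ?_, hq2, ?_, ?_⟩
    · have h3 : qf (Q k) ((a * b' - a' * b)⁻¹ • (a • x + b • y)) =
          (a * b' - a' * b)⁻¹ * ((a * b' - a' * b)⁻¹ * qf (Q k) (a • x + b • y)) := by
        show bf (Q k) _ _ = _
        rw [bf_smul_left, bf_smul_right]
        rfl
      rw [h3, hq1 k]
      ring
    · have h3 : (a * b' - a' * b)⁻¹ • (a • x + b • y) =
          ((a * b' - a' * b)⁻¹ * a) • x + ((a * b' - a' * b)⁻¹ * b) • y := by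
        rw [smul_add, smul_smul, smul_smul]
      rw [h3]
      apply li_comb hxy
      have h4 : (a * b' - a' * b)⁻¹ * a * b' - a' * ((a * b' - a' * b)⁻¹ * b) = 1 := by
        have h5 : (a * b' - a' * b)⁻¹ * (a * b' - a' * b) = 1 := inv_mul_cancel₀ hD
        linear_combination h5
      rw [h4]
      exact one_ne_zero
    · rw [plu_smul_left, plu_comb, smul_smul, inv_mul_cancel₀ hD, one_smul]

end Pool.Agent.H161.ZL
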